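import Pool.Agent.R967.Per.Area
import Pool.Agent.Y41.EV.Base

/-!
Transfer of local properties of the exploration paths to the limits of the perimeter.
-/

set_option autoImplicit false

namespace Pool.Agent.N956.PV

open H984P H984N MeasureTheory Filter Topology Pool.Agent.Y995.LG Pool.Agent.R967.Per
open scoped ENNReal

section aff

variable {p q : X} {z : ℂ} {A B : unitInterval} {lam : unitInterval → unitInterval} {ρ : ℝ}

theorem aff_onto (h : Aff p q z A B lam ρ) {s t : unitInterval} (hs : s ∈ Set.Icc A B)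
    (ht : t ∈ Set.Icc A B) {y : unitInterval} (h1 : lam s ≤ y) (h2 : y ≤ lam t) :
    ∃ u ∈ Set.Icc A B, lam u = y ∧ s ≤ u ∧ u ≤ t := by
  have hr := h.ρ0
  have hy1 : (lam s : ℝ) ≤ y := h1
  have hy2 : (y : ℝ) ≤ lam t := h2
  have h3 := h.aff s hs t ht
  have hm : s + ((y : ℝ) - lam s) / ρ ∈ Set.Icc (s : ℝ) t := by
    constructor
    · have : 0 ≤ ((y : ℝ) - lam s) / ρ := div_nonneg (by linarith) hr.le
      linarith
    · have : ((y : ℝ) - lam s) / ρ ≤ (t : ℝ) - s := by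
        rw [div_le_iff₀ hr]
        nlinarith
      linarith
  obtain ⟨u, hu⟩ : ∃ u : unitInterval, (u : ℝ) = s + ((y : ℝ) - lam s) / ρ :=
    ⟨⟨_, s.2.1.trans hm.1, hm.2.trans t.2.2⟩, rfl⟩
  have hsu : s ≤ u := by
    have : (s : ℝ) ≤ u := by rw [hu]; exact hm.1
    exact this
  have hut : u ≤ t := by
    have : (u : ℝ) ≤ t := by rw [hu]; exact hm.2
    exact this
  have hu' : u ∈ Set.Icc A B := ⟨hs.1.trans hsu, hut.trans ht.2⟩
  refine ⟨u, hu', ?_, hsu, hut⟩
  have h4 := h.aff s hs u hu'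
  refine Subtype.ext ?_
  have : ρ * ((u : ℝ) - s) = (y : ℝ) - lam s := by
    rw [hu]
    field_simp
    ring
  linarith

theorem aff_time (h : Aff p q z A B lam ρ) {s t : unitInterval} (hs : s ∈ Set.Icc A B)
    (ht : t ∈ Set.Icc A B) : p.2 * ((t : ℝ) - s) = q.2 * ((lam t : ℝ) - lam s) := by
  rw [h.aff s hs t ht, h.pq, mul_assoc]

theorem aff_atime (h : Aff p q z A B lam ρ) {s t : unitInterval} (hs : s ∈ Set.Icc A B)
    (ht : t ∈ Set.Icc A B) : p.2 * |(s : ℝ) - t| = q.2 * |(lam s : ℝ) - lam t| := by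
  rw [h.aff t ht s hs, abs_mul, abs_of_pos h.ρ0, h.pq, mul_assoc]

theorem aff_lt (h : Aff p q z A B lam ρ) {s t : unitInterval} (hs : s ∈ Set.Icc A B)
    (ht : t ∈ Set.Icc A B) (hst : s < t) : lam s < lam t := by
  have h1 := h.aff s hs t ht
  have h2 : (s : ℝ) < t := hst
  have h3 : 0 < ρ * ((t : ℝ) - s) := mul_pos h.ρ0 (by linarith)
  have h4 : (lam s : ℝ) < lam t := by linarith
  exact h4

theorem null_pull (h : Aff p q z A B lam ρ) {N : Set unitInterval} (hN : volume N = 0) :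
    volume {t : unitInterval | t ∈ Set.Icc A B ∧ lam t ∈ N} = 0 := by
  have hv : ∀ S : Set unitInterval, volume S = volume ((fun x : unitInterval => (x : ℝ)) '' S) :=
    fun S => (MeasurableEmbedding.subtype_coe
      (measurableSet_Icc : MeasurableSet (Set.Icc (0 : ℝ) 1))).comap_apply volume _
  rw [hv] at hN ⊢
  have hA : A ∈ Set.Icc A B := ⟨le_rfl, h.le⟩
  have hsub : (fun x : unitInterval => (x : ℝ)) '' {t : unitInterval | t ∈ Set.Icc A B ∧ lam t ∈ N} ⊆
      (fun x : ℝ => ρ * x) ⁻¹' ((fun x : ℝ => x + ((lam A : ℝ) - ρ * A)) ⁻¹'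
        ((fun x : unitInterval => (x : ℝ)) '' N)) := by
    rintro _ ⟨t, ⟨ht, htN⟩, rfl⟩
    refine ⟨lam t, htN, ?_⟩
    have := h.aff A hA t ht
    simp only
    linarith
  refine measure_mono_null hsub ?_
  rw [Real.volume_preimage_mul_left h.ρ0.ne', measure_preimage_add_right, hN, mul_zero]

end aff

/-- Transfer of properties of almost every time. -/
theorem ae_times {p : X} (h0 : p.1 0 = p.1 1) {G : Set X} (hG : ∀ q ∈ G, 0 < q.2) (hl : LocG G p)
    (hv : volume {t : unitInterval | p.1 t ∉ Pool.Agent.Y995.LG.sq} = 0)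
    (P : X → unitInterval → Prop) (hGP : ∀ q ∈ G, ∀ᵐ t : unitInterval, P q t)
    (hP : ∀ (q : X) (z : ℂ) (A B : unitInterval) (lam : unitInterval → unitInterval) (ρ : ℝ),
      Aff p q z A B lam ρ → ∀ t, A < t → t < B → P q (lam t) → P p t) :
    ∀ᵐ t : unitInterval, P p t := by
  have h01 : volume ({0, 1} : Set unitInterval) = 0 := (Set.toFinite _).measure_zero _
  have hmain : volume {t : unitInterval | p.1 t ∈ Pool.Agent.Y995.LG.sq ∧ t ≠ 0 ∧ t ≠ 1 ∧
      ¬ P p t} = 0 := by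
    refine measure_null_of_locally_null _ fun t ht => ?_
    obtain ⟨q, hq, z, A, B, lam, ρ, hnb, haff⟩ := aff_of h0 hG hl t ht.1
    have hN := null_pull haff (ae_iff.1 (hGP q hq))
    have hAt : A < t := by
      have h1 : ∃ u, u < t := ⟨0, lt_of_le_of_ne (unitInterval.nonneg t) (Ne.symm ht.2.1)⟩
      obtain ⟨l, hl1, hl2⟩ := exists_Ioc_subset_of_mem_nhds hnb h1
      obtain ⟨m, hm1, hm2⟩ := exists_between hl1
      exact lt_of_le_of_lt (hl2 ⟨hm1, hm2.le⟩).1 hm2
    have htB : t < B := by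
      have h1 : ∃ u, t < u := ⟨1, lt_of_le_of_ne (unitInterval.le_one t) ht.2.2.1⟩
      obtain ⟨l, hl1, hl2⟩ := exists_Ico_subset_of_mem_nhds hnb h1
      obtain ⟨m, hm1, hm2⟩ := exists_between hl1
      exact lt_of_lt_of_le hm1 (hl2 ⟨hm1.le, hm2⟩).2
    refine ⟨Set.Ioo A B ∩ {t : unitInterval | p.1 t ∈ Pool.Agent.Y995.LG.sq ∧ t ≠ 0 ∧ t ≠ 1 ∧
      ¬ P p t}, ?_, ?_⟩
    · exact Filter.inter_mem (mem_nhdsWithin_of_mem_nhds (Ioo_mem_nhds hAt htB))
        self_mem_nhdsWithin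
    · refine measure_mono_null ?_ hN
      rintro s ⟨hs, -, -, -, hs'⟩
      refine ⟨⟨hs.1.le, hs.2.le⟩, fun hc => hs' ?_⟩
      exact hP q z A B lam ρ haff s hs.1 hs.2 hc
  rw [ae_iff]
  refine measure_mono_null (t := {t : unitInterval | p.1 t ∈ Pool.Agent.Y995.LG.sq ∧ t ≠ 0 ∧
    t ≠ 1 ∧ ¬ P p t} ∪ ({t : unitInterval | p.1 t ∉ Pool.Agent.Y995.LG.sq} ∪ {0, 1})) ?_ ?_
  · intro t ht
    by_cases h1 : p.1 t ∈ Pool.Agent.Y995.LG.sq
    · by_cases h2 : t = 0
      · right; right; left; exact h2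
      · by_cases h3 : t = 1
        · right; right; right; exact h3
        · left; exact ⟨h1, h2, h3, ht⟩
    · right; left; exact h1
  · rw [measure_union_null_iff, measure_union_null_iff]
    exact ⟨hmain, hv, h01⟩

end Pool.Agent.N956.PV
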