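import Pool.Agent.N956.PV.Aff

/-!
Transfer of the laws of the iterated logarithm.
-/

set_option autoImplicit false

namespace Pool.Agent.N956.PV

open H984P H984N MeasureTheory Filter Topology Pool.Agent.Y995.LG Pool.Agent.R967.Per
open scoped ENNReal

variable {p q : X} {z : ℂ} {A B : unitInterval} {lam : unitInterval → unitInterval} {ρ : ℝ}

theorem aff_mem_Ioo (h : Aff p q z A B lam ρ) {t : unitInterval} (h1 : A < t) (h2 : t < B) :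
    lam A < lam t ∧ lam t < lam B :=
  ⟨aff_lt h ⟨le_rfl, h.le⟩ ⟨h1.le, h2.le⟩ h1, aff_lt h ⟨h1.le, h2.le⟩ ⟨h.le, le_rfl⟩ h2⟩

theorem aff_tendsto (h : Aff p q z A B lam ρ) {t : unitInterval} (h1 : A < t) (h2 : t < B) :
    Tendsto lam (𝓝 t) (𝓝 (lam t)) := by
  rw [Metric.tendsto_nhds_nhds]
  intro ε hε
  obtain ⟨δ, hδ, hb⟩ := Metric.mem_nhds_iff.1 (Icc_mem_nhds h1 h2)
  have hρ := h.ρ0
  refine ⟨min δ (ε / ρ), lt_min hδ (by positivity), fun s hs => ?_⟩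
  have hs1 : s ∈ Set.Icc A B := hb (Metric.mem_ball.2 (lt_of_lt_of_le hs (min_le_left _ _)))
  have hs2 := lt_of_lt_of_le hs (min_le_right _ _)
  rw [Subtype.dist_eq, Real.dist_eq] at hs2 ⊢
  rw [h.aff t ⟨h1.le, h2.le⟩ s hs1, abs_mul, abs_of_pos hρ]
  rw [lt_div_iff₀ hρ] at hs2
  linarith

/-- The map `lam` is open. -/
theorem aff_open (h : Aff p q z A B lam ρ) {t : unitInterval} (h1 : A < t) (h2 : t < B)
    {S : Set unitInterval} (hS : S ∈ 𝓝 t) : lam '' (S ∩ Set.Icc A B) ∈ 𝓝 (lam t) := by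
  obtain ⟨l, hl1, hl2⟩ := exists_Ioc_subset_of_mem_nhds (Filter.inter_mem hS (Icc_mem_nhds h1 h2))
    ⟨A, h1⟩
  obtain ⟨u, hu1, hu2⟩ := exists_Ico_subset_of_mem_nhds (Filter.inter_mem hS (Icc_mem_nhds h1 h2))
    ⟨B, h2⟩
  obtain ⟨a, ha1, ha2⟩ := exists_between hl1
  obtain ⟨b, hb1, hb2⟩ := exists_between hu1
  have haA : a ∈ Set.Icc A B := (hl2 ⟨ha1, ha2.le⟩).2
  have hbA : b ∈ Set.Icc A B := (hu2 ⟨hb1.le, hb2⟩).2
  have htA : t ∈ Set.Icc A B := ⟨h1.le, h2.le⟩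
  refine Filter.mem_of_superset (Icc_mem_nhds (aff_lt h haA htA ha2) (aff_lt h htA hbA hb1)) ?_
  rintro y ⟨hy1, hy2⟩
  obtain ⟨x, hx, hxy, hax, hxb⟩ := aff_onto h haA hbA hy1 hy2
  refine ⟨x, ?_, hxy⟩
  rcases le_total x t with hxt | hxt
  · exact hl2 ⟨lt_of_lt_of_le ha1 hax, hxt⟩
  · exact hu2 ⟨hxt, lt_of_le_of_lt hxb hb2⟩

/-- Close times are in the arc. -/
theorem aff_near (h : Aff p q z A B lam ρ) {t : unitInterval} (h1 : A < t) (h2 : t < B) :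
    ∀ᶠ x : ℝ in 𝓝[>] 0, ∀ s : unitInterval, p.2 * |(s : ℝ) - t| ≤ x → s ∈ Set.Icc A B := by
  obtain ⟨δ, hδ, hb⟩ := Metric.mem_nhds_iff.1 (Icc_mem_nhds h1 h2)
  have hp := h.p2
  filter_upwards [nhdsWithin_le_nhds (gt_mem_nhds (show (0 : ℝ) < p.2 * δ by positivity))]
    with x hx s hs
  apply hb
  rw [Metric.mem_ball, Subtype.dist_eq, Real.dist_eq]
  exact lt_of_mul_lt_mul_left (lt_of_le_of_lt hs hx) hp.le

/-- Close times are in the image of the arc. -/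
theorem aff_near' (h : Aff p q z A B lam ρ) {t : unitInterval} (h1 : A < t) (h2 : t < B) :
    ∀ᶠ x : ℝ in 𝓝[>] 0, ∀ s : unitInterval, q.2 * |(s : ℝ) - lam t| ≤ x →
      ∃ u ∈ Set.Icc A B, lam u = s := by
  obtain ⟨h3, h4⟩ := aff_mem_Ioo h h1 h2
  obtain ⟨δ, hδ, hb⟩ := Metric.mem_nhds_iff.1 (Icc_mem_nhds h3 h4)
  have hq := h.q2
  filter_upwards [nhdsWithin_le_nhds (gt_mem_nhds (show (0 : ℝ) < q.2 * δ by positivity))]
    with x hx s hs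
  have hs' : s ∈ Set.Icc (lam A) (lam B) := by
    apply hb
    rw [Metric.mem_ball, Subtype.dist_eq, Real.dist_eq]
    exact lt_of_mul_lt_mul_left (lt_of_le_of_lt hs hx) hq.le
  obtain ⟨u, hu, hus, -⟩ := aff_onto h ⟨le_rfl, h.le⟩ ⟨h.le, le_rfl⟩ hs'.1 hs'.2
  exact ⟨u, hu, hus⟩

theorem up_loc {Φ : ℝ → ℝ} {C : ℝ} (h : Aff p q z A B lam ρ) {t : unitInterval} (h1 : A < t)
    (h2 : t < B)
    (hq : ∀ᶠ s : unitInterval in 𝓝 (lam t),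
      dist (q.1 s) (q.1 (lam t)) ≤ C * Φ (q.2 * |(s : ℝ) - lam t|)) :
    ∀ᶠ s : unitInterval in 𝓝 t, dist (p.1 s) (p.1 t) ≤ C * Φ (p.2 * |(s : ℝ) - t|) := by
  filter_upwards [(aff_tendsto h h1 h2).eventually hq, Icc_mem_nhds h1 h2] with s hs hs'
  rw [h.dist hs' ⟨h1.le, h2.le⟩, aff_atime h hs' ⟨h1.le, h2.le⟩]
  exact hs

theorem low_loc {Φ : ℝ → ℝ} {c : ℝ} (h : Aff p q z A B lam ρ) {t : unitInterval} (h1 : A < t)
    (h2 : t < B)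
    (hq : ∃ᶠ s : unitInterval in 𝓝 (lam t),
      c * Φ (q.2 * |(s : ℝ) - lam t|) < dist (q.1 s) (q.1 (lam t))) :
    ∃ᶠ s : unitInterval in 𝓝 t, c * Φ (p.2 * |(s : ℝ) - t|) < dist (p.1 s) (p.1 t) := by
  intro hcon
  apply hq
  have h3 := aff_open h h1 h2 hcon
  filter_upwards [h3] with y hy
  obtain ⟨s, ⟨hs1, hs2⟩, rfl⟩ := hy
  intro hlt
  apply hs1
  rw [h.dist hs2 ⟨h1.le, h2.le⟩, aff_atime h hs2 ⟨h1.le, h2.le⟩]
  exact hlt

theorem chung_low {χ : ℝ → ℝ} {c : ℝ} (h : Aff p q z A B lam ρ) {t : unitInterval} (h1 : A < t)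
    (h2 : t < B)
    (hq : ∀ᶠ x : ℝ in 𝓝[>] 0, ∀ s : unitInterval, q.2 * |(s : ℝ) - lam t| = x →
      ∃ y ∈ Set.uIcc s (lam t), c * χ x < dist (q.1 y) (q.1 (lam t))) :
    ∀ᶠ x : ℝ in 𝓝[>] 0, ∀ s : unitInterval, p.2 * |(s : ℝ) - t| = x →
      ∃ y ∈ Set.uIcc s t, c * χ x < dist (p.1 y) (p.1 t) := by
  have ht : t ∈ Set.Icc A B := ⟨h1.le, h2.le⟩
  filter_upwards [hq, aff_near h h1 h2] with x hx hn s hs
  have hsA := hn s hs.le
  obtain ⟨y, hy, hyd⟩ := hx (lam s) (by rw [← hs, aff_atime h hsA ht])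
  rcases le_total s t with hst | hst
  · have h3 := h.mono hsA ht hst
    rw [Set.uIcc_of_le h3] at hy
    obtain ⟨u, hu, hul, hu1, hu2⟩ := aff_onto h hsA ht hy.1 hy.2
    refine ⟨u, ?_, ?_⟩
    · rw [Set.uIcc_of_le hst]
      exact ⟨hu1, hu2⟩
    · rw [h.dist hu ht, hul]
      exact hyd
  · have h3 := h.mono ht hsA hst
    rw [Set.uIcc_of_ge h3] at hy
    obtain ⟨u, hu, hul, hu1, hu2⟩ := aff_onto h ht hsA hy.1 hy.2
    refine ⟨u, ?_, ?_⟩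
    · rw [Set.uIcc_of_ge hst]
      exact ⟨hu1, hu2⟩
    · rw [h.dist hu ht, hul]
      exact hyd

theorem slow_loc {χ : ℝ → ℝ} {C : ℝ} (h : Aff p q z A B lam ρ) {t : unitInterval} (h1 : A < t)
    (h2 : t < B) :
    (∃ᶠ x : ℝ in 𝓝[>] 0, ∀ s : unitInterval, q.2 * |(s : ℝ) - lam t| ≤ x →
      dist (q.1 s) (q.1 (lam t)) ≤ C * χ x) ↔
    ∃ᶠ x : ℝ in 𝓝[>] 0, ∀ s : unitInterval, p.2 * |(s : ℝ) - t| ≤ x →
      dist (p.1 s) (p.1 t) ≤ C * χ x := by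
  have ht : t ∈ Set.Icc A B := ⟨h1.le, h2.le⟩
  constructor
  · intro hq
    refine (hq.and_eventually (aff_near h h1 h2)).mono ?_
    rintro x ⟨hx, hn⟩ s hs
    have hsA := hn s hs
    rw [h.dist hsA ht]
    exact hx (lam s) (by rw [← aff_atime h hsA ht]; exact hs)
  · intro hp
    refine (hp.and_eventually (aff_near' h h1 h2)).mono ?_
    rintro x ⟨hx, hn⟩ s hs
    obtain ⟨u, hu, rfl⟩ := hn s hs
    rw [← h.dist hu ht]
    exact hx u (by rw [aff_atime h hu ht]; exact hs)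

end Pool.Agent.N956.PV
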