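import Pool.Agent.N956.PV.Var

/-!
Transfer of the lower bound for the variation.
-/

set_option autoImplicit false

namespace Pool.Agent.N956.PV

open H984P H984N MeasureTheory Filter Topology Pool.Agent.Y995.LG Pool.Agent.R967.Per
open Pool.Agent.Y41.EV
open scoped ENNReal

/-- The lower bound on an arc. -/
theorem vg_aff {p q : X} {z : ℂ} {A B : unitInterval} {lam : unitInterval → unitInterval} {ρ : ℝ}
    (h : Aff p q z A B lam ρ) {η : ℝ} {s t : unitInterval} (hs : s ∈ Set.Icc A B)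
    (ht : t ∈ Set.Icc A B) (hst : s ≤ t) {x : ℝ} (hq : VG q.1 (ρ * η) (lam s) (lam t) x) :
    VG p.1 η s t x := by
  obtain ⟨n, τ, h1, h2, h3, h4, h5⟩ := hq
  have hρ := h.ρ0
  have hst' : (s : ℝ) ≤ t := hst
  have hlst := h.mono hs ht hst
  have hτ0 : ∀ i, lam s ≤ τ i := fun i => by rw [← h2]; exact h1 (Nat.zero_le _)
  have hmin : ∀ i, lam s ≤ min (τ i) (lam t) ∧ min (τ i) (lam t) ≤ lam t := fun i =>
    ⟨le_min (hτ0 i) hlst, min_le_right _ _⟩
  have hex : ∀ i, ∃ u ∈ Set.Icc A B, lam u = min (τ i) (lam t) ∧ s ≤ u ∧ u ≤ t := fun i =>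
    aff_onto h hs ht (hmin i).1 (hmin i).2
  choose σ hσ hσl hσs hσt using hex
  have hval : ∀ i, (σ i : ℝ) = s + ((min (τ i) (lam t) : unitInterval) - (lam s : ℝ)) / ρ := by
    intro i
    have h6 := h.aff s hs (σ i) (hσ i)
    rw [← hσl i, h6]
    field_simp
    ring
  have hτn : ∀ i ≤ n, min (τ i) (lam t) = τ i := by
    intro i hi
    refine min_eq_left ?_
    rw [← h3]
    exact h1 hi
  refine ⟨n, σ, ?_, ?_, ?_, ?_, ?_⟩
  · intro i j hij
    have h7 : min (τ i) (lam t) ≤ min (τ j) (lam t) := min_le_min (h1 hij) le_rfl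
    have h8 : ((min (τ i) (lam t) : unitInterval) : ℝ) ≤ (min (τ j) (lam t) : unitInterval) := h7
    have h9 : (σ i : ℝ) ≤ σ j := by
      rw [hval i, hval j]
      have := div_le_div_of_nonneg_right (sub_le_sub_right h8 (lam s : ℝ)) hρ.le
      linarith
    exact h9
  · refine Subtype.ext ?_
    rw [hval 0, hτn 0 (Nat.zero_le _), h2, sub_self, zero_div, add_zero]
  · refine Subtype.ext ?_
    rw [hval n, hτn n le_rfl, h3]
    have h6 := h.aff s hs t ht
    rw [h6]
    field_simp
    ring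
  · intro i hi
    have h6 := h4 i hi
    rw [hval i, hval (i + 1), hτn i hi.le, hτn (i + 1) hi]
    have h7 : ((τ (i + 1) : ℝ) - lam s) / ρ - ((τ i : ℝ) - lam s) / ρ ≤ η := by
      rw [← sub_div, div_le_iff₀ hρ]
      linarith
    linarith
  · refine h5.trans (le_of_eq (Finset.sum_congr rfl fun i hi => ?_))
    rw [Finset.mem_range] at hi
    rw [h.dist (hσ i) (hσ (i + 1)), hσl i, hσl (i + 1), hτn i hi.le, hτn (i + 1) hi]

/-- Pieces of a compact set of times in an open set of times in the square. -/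
theorem pieces' {p : X} {Q : unitInterval → unitInterval → Prop}
    (hloc : ∀ t0 : unitInterval, p.1 t0 ∈ Pool.Agent.Y995.LG.sq → ∃ A B : unitInterval,
      Set.Icc A B ∈ 𝓝 t0 ∧ ∀ s ∈ Set.Icc A B, ∀ t ∈ Set.Icc A B, s < t → Q s t)
    {K O : Set unitInterval} (hK : IsCompact K) (hO : IsOpen O) (hKO : K ⊆ O)
    (hKs : ∀ t ∈ K, p.1 t ∈ Pool.Agent.Y995.LG.sq) :
    ∃ (m : ℕ) (S : Finset ℕ), 0 < m ∧ (∀ j ∈ S, j < m) ∧ K ⊆ (⋃ j ∈ S, pce m j) ∧
      (∀ j ∈ S, pce m j ⊆ O) ∧ (∀ j ∈ S, Q (pnt m j) (pnt m (j + 1))) := by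
  classical
  choose! A B hAB hgood using hloc
  have hcov : K ⊆ ⋃ x : K, (interior (Set.Icc (A x.1) (B x.1)) ∩ O) := by
    intro x hx
    exact Set.mem_iUnion.2 ⟨⟨x, hx⟩, ⟨mem_interior_iff_mem_nhds.2 (hAB x (hKs x hx)), hKO hx⟩⟩
  obtain ⟨δ, hδ, hleb⟩ := lebesgue_number_lemma_of_metric hK (fun x : K =>
    (isOpen_interior.inter hO)) hcov
  obtain ⟨m, hm⟩ := exists_nat_one_div_lt hδ
  refine ⟨m + 1, (Finset.range (m + 1)).filter (fun j => (pce (m + 1) j ∩ K).Nonempty),
    Nat.succ_pos m, ?_, ?_, ?_, ?_⟩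
  · intro j hj
    exact Finset.mem_range.1 (Finset.mem_filter.1 hj).1
  · intro x hx
    obtain ⟨j, hj, hxj⟩ := exists_pce (Nat.succ_pos m) x
    exact Set.mem_iUnion₂.2 ⟨j, Finset.mem_filter.2 ⟨Finset.mem_range.2 hj, x, hxj, hx⟩, hxj⟩
  all_goals
    intro j hj
    obtain ⟨hj1, x, hxj, hxK⟩ := Finset.mem_filter.1 hj
    rw [Finset.mem_range] at hj1
    obtain ⟨i, hi⟩ := hleb x hxK
    have hsub : pce (m + 1) j ⊆ Metric.ball x δ := by
      intro y hy
      rw [Metric.mem_ball, Subtype.dist_eq, Real.dist_eq]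
      have e := pnt_sub hj1
      have h1 : (pnt (m + 1) j : ℝ) ≤ x := hxj.1
      have h2 : (x : ℝ) ≤ pnt (m + 1) (j + 1) := hxj.2
      have h3 : (pnt (m + 1) j : ℝ) ≤ y := hy.1
      have h4 : (y : ℝ) ≤ pnt (m + 1) (j + 1) := hy.2
      push_cast at e
      rw [abs_lt]
      constructor <;> linarith
  · exact fun y hy => (hi (hsub hy)).2
  · have h0 : pnt (m + 1) j ∈ pce (m + 1) j := ⟨le_rfl, (pnt_lt hj1).le⟩
    have h1 : pnt (m + 1) (j + 1) ∈ pce (m + 1) j := ⟨(pnt_lt hj1).le, le_rfl⟩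
    exact hgood i.1 (hKs _ i.2) _ (interior_subset (hi (hsub h0)).1) _
      (interior_subset (hi (hsub h1)).1) (pnt_lt hj1)

theorem pnt_zero' (m : ℕ) : pnt m 0 = 0 := by
  unfold pnt
  rw [Nat.cast_zero, zero_div]
  exact Set.projIcc_left _

theorem pnt_one' {m : ℕ} (hm : 0 < m) : pnt m m = 1 := by
  refine Subtype.ext ?_
  have hm' : (m : ℝ) ≠ 0 := by exact_mod_cast hm.ne'
  rw [pnt_val hm le_rfl, div_self hm', Set.Icc.coe_one]

theorem pnt_mono (m : ℕ) : ∀ j, pnt m j ≤ pnt m (j + 1) := by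
  intro j
  unfold pnt
  refine Set.monotone_projIcc _ ?_
  push_cast
  exact div_le_div_of_nonneg_right (by linarith) (Nat.cast_nonneg _)

/-- Gluing along the uniform partition. -/
theorem vg_glue {f : C(unitInterval, ℂ)} {η : ℝ} (hη : 0 < η) {s t : unitInterval} (hst : s ≤ t)
    {m : ℕ} (hm : 0 < m) {S : Finset ℕ} (hS : ∀ j ∈ S, j < m)
    (hSs : ∀ j ∈ S, pce m j ⊆ Set.Icc s t) {y : ℝ}
    (hV : ∀ j ∈ S, VG f η (pnt m j) (pnt m (j + 1)) y) :
    VG f η s t (S.card * y) := by
  classical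
  have key : ∀ k : ℕ, VG f η s (clip s t (pnt m k)) (((S.filter (fun j => j < k)).card : ℝ) * y) := by
    intro k
    induction k with
    | zero =>
      have e : S.filter (fun j => j < 0) = ∅ := by
        rw [Finset.filter_eq_empty_iff]
        intro j _
        omega
      rw [e, Finset.card_empty, Nat.cast_zero, zero_mul]
      exact VG.triv f hη (clip_mem hst _).1
    | succ k ih =>
      have hmono : clip s t (pnt m k) ≤ clip s t (pnt m (k + 1)) := clip_mono (pnt_mono m k)
      by_cases hk : k ∈ S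
      · have e : S.filter (fun j => j < k + 1) = insert k (S.filter (fun j => j < k)) := by
          ext j
          simp only [Finset.mem_filter, Finset.mem_insert]
          constructor
          · rintro ⟨h1, h2⟩
            rcases Nat.lt_or_ge j k with h | h
            · right; exact ⟨h1, h⟩
            · left; omega
          · rintro (h | ⟨h1, h2⟩)
            · subst h
              exact ⟨hk, by omega⟩
            · exact ⟨h1, by omega⟩
        have hk' : k ∉ S.filter (fun j => j < k) := by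
          simp
        rw [e, Finset.card_insert_of_notMem hk']
        have h0 : pnt m k ∈ pce m k := ⟨le_rfl, pnt_mono m k⟩
        have h1 : pnt m (k + 1) ∈ pce m k := ⟨pnt_mono m k, le_rfl⟩
        have e1 : clip s t (pnt m k) = pnt m k := clip_of (hSs k hk h0)
        have e2 : clip s t (pnt m (k + 1)) = pnt m (k + 1) := clip_of (hSs k hk h1)
        have h2 := ih
        rw [e1] at h2
        rw [e2]
        refine (h2.add (hV k hk)).le (le_of_eq ?_)
        push_cast
        ring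
      · have e : S.filter (fun j => j < k + 1) = S.filter (fun j => j < k) := by
          refine Finset.filter_congr fun j hj => ?_
          constructor
          · intro h
            rcases Nat.lt_or_ge j k with h' | h'
            · exact h'
            · exfalso
              apply hk
              have : j = k := by omega
              rwa [← this]
          · intro h
            omega
        rw [e]
        refine (ih.add (VG.triv f hη hmono)).le (le_of_eq (by ring))
  have h1 := key m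
  have e : S.filter (fun j => j < m) = S := Finset.filter_true_of_mem fun j hj => hS j hj
  rw [e, pnt_one' hm] at h1
  have e2 : clip s t 1 = t := by
    unfold clip
    rw [min_eq_left (unitInterval.le_one' : t ≤ 1), max_eq_right hst]
  rwa [e2] at h1

/-- Lower bound for all arcs. -/
theorem low_arc {p : X} (h0 : p.1 0 = p.1 1) {G : Set X} (hG : ∀ q ∈ G, 0 < q.2) (hl : LocG G p)
    (hT : 0 < p.2) (hv : volume {t : unitInterval | p.1 t ∉ Pool.Agent.Y995.LG.sq} = 0)
    {c : ℝ} (hc : 0 < c) (hL : ∀ q ∈ G, LOF q.1 q.2 c) : LOF p.1 p.2 c := by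
  intro s t hst η hη x hx
  have hst' : (s : ℝ) ≤ t := hst
  rcases lt_or_ge x 0 with hx0 | hx0
  · exact (VG.triv p.1 hη hst).le hx0.le
  have hlt : 0 < (t : ℝ) - s := by
    by_contra hcon
    have h1 : (t : ℝ) - s = 0 := by linarith
    rw [h1, mul_zero] at hx
    linarith
  have hcT : 0 < c * p.2 := mul_pos hc hT
  obtain ⟨w, hw1, hw2⟩ : ∃ w : ℝ, x / (c * p.2) < w ∧ w < (t : ℝ) - s := by
    refine exists_between ?_
    rw [div_lt_iff₀ hcT]
    linarith
  have hw0 : 0 < w := lt_of_le_of_lt (div_nonneg hx0 hcT.le) hw1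
  obtain ⟨O, hO⟩ : ∃ O : Set unitInterval, O = Set.Ioo s t ∩ p.1 ⁻¹' Pool.Agent.Y995.LG.sq :=
    ⟨_, rfl⟩
  have hOo : IsOpen O := by rw [hO]; exact isOpen_Ioo.inter (sq_open.preimage p.1.continuous)
  have hOv : volume O = ENNReal.ofReal ((t : ℝ) - s) := by
    rw [hO, measure_inter_conull, unitInterval.volume_Ioo]
    exact hv
  obtain ⟨K, hKO, hK, hKv⟩ := hOo.measurableSet.exists_lt_isCompact
    (μ := (volume : Measure unitInterval)) (r := ENNReal.ofReal w) (by
      rw [hOv]
      exact (ENNReal.ofReal_lt_ofReal_iff hlt).2 hw2)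
  obtain ⟨m, S, hm, hS, hcov, hSO, hQ⟩ := pieces' (p := p)
    (Q := fun a b => ∀ y : ℝ, y < c * p.2 * ((b : ℝ) - a) → VG p.1 η a b y) (fun t0 ht0 => by
      obtain ⟨q, hq, z, A, B, lam, ρ, hnb, haff⟩ := aff_of h0 hG hl t0 ht0
      refine ⟨A, B, hnb, fun a ha b hb hab y hy => ?_⟩
      refine vg_aff haff ha hb hab.le ?_
      refine hL q hq _ _ (haff.mono ha hb hab.le) _ (mul_pos haff.ρ0 hη) y ?_
      rw [mul_assoc, ← aff_time haff ha hb, ← mul_assoc]
      exact hy) hK hOo hKO (fun u hu => by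
    have := hKO hu
    rw [hO] at this
    exact this.2)
  have hm' : (0 : ℝ) < m := by exact_mod_cast hm
  have hcard : w ≤ (S.card : ℝ) / m := by
    have h1 := hKv.le.trans (le_card hS hcov)
    rwa [ENNReal.ofReal_le_ofReal_iff (by positivity)] at h1
  have hS0 : (0 : ℝ) < S.card := by
    have : 0 < (S.card : ℝ) / m := lt_of_lt_of_le hw0 hcard
    by_contra hcon
    have h1 : (S.card : ℝ) = 0 := le_antisymm (not_lt.1 hcon) (Nat.cast_nonneg _)
    rw [h1, zero_div] at this
    exact lt_irrefl _ this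
  have hy : x / S.card < c * p.2 * (1 / m) := by
    rw [div_lt_iff₀ hS0]
    rw [div_lt_iff₀ hcT] at hw1
    have h2 : w * (c * p.2) ≤ (S.card : ℝ) / m * (c * p.2) :=
      mul_le_mul_of_nonneg_right hcard hcT.le
    calc x < w * (c * p.2) := hw1
      _ ≤ (S.card : ℝ) / m * (c * p.2) := h2
      _ = _ := by ring
  have hVG := vg_glue (f := p.1) hη hst hm hS (fun j hj => (hSO j hj).trans (by
    rw [hO]
    exact Set.inter_subset_left.trans Set.Ioo_subset_Icc_self)) (y := x / S.card)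
    (fun j hj => hQ j hj _ (by rw [pnt_sub (hS j hj)]; exact hy))
  refine hVG.le (le_of_eq ?_)
  field_simp

end Pool.Agent.N956.PV
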