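import Pool.Agent.N956.PV.Loc

/-!
Transfer of the exact variation.
-/

set_option autoImplicit false

namespace Pool.Agent.N956.PV

open H984P H984N MeasureTheory Filter Topology Pool.Agent.Y995.LG Pool.Agent.R967.Per
open Pool.Agent.Y41.EV
open scoped ENNReal

theorem sq_open : IsOpen Pool.Agent.Y995.LG.sq := by
  have e : Pool.Agent.Y995.LG.sq = {z : ℂ | 0 < z.re} ∩ {z | z.re < 1} ∩ {z | 0 < z.im} ∩
      {z | z.im < 1} := by
    ext z
    simp only [Pool.Agent.Y995.LG.sq, Set.mem_inter_iff, Set.mem_ofPred_eq]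
    tauto
  rw [e]
  exact (((isOpen_lt continuous_const Complex.continuous_re).inter
    (isOpen_lt Complex.continuous_re continuous_const)).inter
    (isOpen_lt continuous_const Complex.continuous_im)).inter
    (isOpen_lt Complex.continuous_im continuous_const)

/-- clipping to an interval -/
def clip (A B u : unitInterval) : unitInterval := max A (min B u)

theorem clip_mem {A B : unitInterval} (hAB : A ≤ B) (u : unitInterval) :
    clip A B u ∈ Set.Icc A B :=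
  ⟨le_max_left _ _, max_le hAB (min_le_left _ _)⟩

theorem clip_mono {A B u v : unitInterval} (h : u ≤ v) : clip A B u ≤ clip A B v :=
  max_le_max le_rfl (min_le_min le_rfl h)

theorem clip_of {A B u : unitInterval} (h : u ∈ Set.Icc A B) : clip A B u = u := by
  unfold clip
  rw [min_eq_right h.2, max_eq_right h.1]

/-- One arc. -/
theorem up_one {p q : X} {z : ℂ} {A B : unitInterval} {lam : unitInterval → unitInterval} {ρ : ℝ}
    (h : Aff p q z A B lam ρ) {C : ℝ} (hq : UPF q.1 q.2 C) {ε : ℝ} (hε : 0 < ε) :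
    ∃ η : ℝ, 0 < η ∧ ∀ (n : ℕ) (a b : ℕ → unitInterval) (J : Finset ℕ),
      (∀ i < n, a i ≤ b i ∧ (b i : ℝ) - a i ≤ η) → (∀ i j, i < j → j < n → b i ≤ a j) →
      (∀ i ∈ J, i < n ∧ a i ∈ Set.Icc A B ∧ b i ∈ Set.Icc A B) →
      ∑ i ∈ J, psi (dist (p.1 (a i)) (p.1 (b i))) ≤
        C * p.2 * ∑ i ∈ J, ((b i : ℝ) - a i) + ε := by
  classical
  obtain ⟨η, hη, hU⟩ := hq ε hε
  have hρ := h.ρ0
  refine ⟨η / ρ, by positivity, fun n a b J h1 h2 h3 => ?_⟩
  obtain ⟨a', ha'⟩ : ∃ a' : ℕ → unitInterval, a' = fun i => lam (clip A B (a i)) := ⟨_, rfl⟩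
  obtain ⟨b', hb'⟩ : ∃ b' : ℕ → unitInterval,
      b' = fun i => if i ∈ J then lam (b i) else lam (clip A B (a i)) := ⟨_, rfl⟩
  have hJ : ∀ i ∈ J, a' i = lam (a i) ∧ b' i = lam (b i) := by
    intro i hi
    rw [ha', hb']
    simp only
    rw [if_pos hi, clip_of (h3 i hi).2.1]
    exact ⟨rfl, rfl⟩
  have hJ' : ∀ i, i ∉ J → b' i = a' i := by
    intro i hi
    rw [ha', hb']
    simp only
    rw [if_neg hi]
  have k1 : ∀ i < n, a' i ≤ b' i ∧ (b' i : ℝ) - a' i ≤ η := by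
    intro i hi
    by_cases hiJ : i ∈ J
    · obtain ⟨e1, e2⟩ := hJ i hiJ
      obtain ⟨-, hA, hB⟩ := h3 i hiJ
      rw [e1, e2]
      refine ⟨h.mono hA hB (h1 i hi).1, ?_⟩
      rw [h.aff _ hA _ hB]
      have := (h1 i hi).2
      rw [le_div_iff₀ hρ] at this
      linarith
    · rw [hJ' i hiJ]
      exact ⟨le_rfl, by rw [sub_self]; exact hη.le⟩
  have k2 : ∀ i j, i < j → j < n → b' i ≤ a' j := by
    intro i j hij hj
    have h4 : clip A B (b i) ≤ clip A B (a j) := clip_mono (h2 i j hij hj)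
    by_cases hiJ : i ∈ J
    · rw [(hJ i hiJ).2, ha']
      simp only
      obtain ⟨-, hA, hB⟩ := h3 i hiJ
      rw [clip_of hB] at h4
      exact h.mono hB (clip_mem h.le _) h4
    · rw [hJ' i hiJ, ha']
      simp only
      exact h.mono (clip_mem h.le _) (clip_mem h.le _)
        (clip_mono ((h1 i (hij.trans hj)).1.trans (h2 i j hij hj)))
  have k3 := hU n a' b' k1 k2
  have hsub : J ⊆ Finset.range n := fun i hi => Finset.mem_range.2 (h3 i hi).1
  have e1 : ∑ i ∈ Finset.range n, psi (dist (q.1 (a' i)) (q.1 (b' i))) =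
      ∑ i ∈ J, psi (dist (p.1 (a i)) (p.1 (b i))) := by
    rw [← Finset.sum_subset hsub]
    · refine Finset.sum_congr rfl fun i hi => ?_
      obtain ⟨-, hA, hB⟩ := h3 i hi
      rw [(hJ i hi).1, (hJ i hi).2, h.dist hA hB]
    · intro i _ hi
      rw [hJ' i hi, dist_self, psi_zero]
  have e2 : ∑ i ∈ Finset.range n, ((b' i : ℝ) - a' i) = ρ * ∑ i ∈ J, ((b i : ℝ) - a i) := by
    rw [Finset.mul_sum, ← Finset.sum_subset hsub]
    · refine Finset.sum_congr rfl fun i hi => ?_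
      obtain ⟨-, hA, hB⟩ := h3 i hi
      rw [(hJ i hi).1, (hJ i hi).2, h.aff _ hA _ hB]
    · intro i _ hi
      rw [hJ' i hi, sub_self]
  rw [e1, e2] at k3
  refine k3.trans (le_of_eq ?_)
  rw [h.pq]
  ring

/-- Upper bound for arcs in the open square. -/
theorem up_arc {p : X} (h0 : p.1 0 = p.1 1) {G : Set X} (hG : ∀ q ∈ G, 0 < q.2) (hl : LocG G p)
    {C : ℝ} (hU : ∀ q ∈ G, UPF q.1 q.2 C) {s t : unitInterval}
    (hs : ∀ u ∈ Set.Icc s t, p.1 u ∈ Pool.Agent.Y995.LG.sq) {ε : ℝ} (hε : 0 < ε) :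
    ∃ η : ℝ, 0 < η ∧ ∀ (n : ℕ) (a b : ℕ → unitInterval),
      (∀ i < n, a i ≤ b i ∧ (b i : ℝ) - a i ≤ η) → (∀ i j, i < j → j < n → b i ≤ a j) →
      (∀ i < n, a i ∈ Set.Icc s t) →
      ∑ i ∈ Finset.range n, psi (dist (p.1 (a i)) (p.1 (b i))) ≤
        C * p.2 * ∑ i ∈ Finset.range n, ((b i : ℝ) - a i) + ε := by
  classical
  obtain ⟨ι, hι, q, z, A, B, lam, ρ, δ, hδ, hq, hcov⟩ := cover h0 hG hl (isCompact_Icc (a := s)
    (b := t)) hs
  have hε' : 0 < ε / (Fintype.card ι + 1) := by positivity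
  choose η hη hηs using fun i => up_one (hq i).2 (hU _ (hq i).1) hε'
  obtain ⟨η0, hη0, hle⟩ : ∃ η0 : ℝ, 0 < η0 ∧ ∀ i, η0 ≤ η i := by
    rcases isEmpty_or_nonempty ι with he | hne
    · exact ⟨1, one_pos, fun i => (he.false i).elim⟩
    · obtain ⟨i, hi⟩ := Finite.exists_min η
      exact ⟨η i, hη i, hi⟩
  refine ⟨min (δ / 2) η0, lt_min (by positivity) hη0, fun n a b h1 h2 h3 => ?_⟩
  have hex : ∀ j : ℕ, j < n → ∃ i, a j ∈ Set.Icc (A i) (B i) ∧ b j ∈ Set.Icc (A i) (B i) := by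
    intro j hj
    obtain ⟨i, hi⟩ := hcov (a j) (h3 j hj)
    refine ⟨i, hi (Metric.mem_ball_self hδ), hi ?_⟩
    rw [Metric.mem_ball, Subtype.dist_eq, Real.dist_eq]
    have h4 := (h1 j hj).2.trans (min_le_left _ _)
    have h5 : (a j : ℝ) ≤ b j := (h1 j hj).1
    rw [abs_of_nonneg (by linarith)]
    linarith
  rcases isEmpty_or_nonempty ι with he | hne
  · have hn : n = 0 := by
      by_contra hn
      obtain ⟨i, -⟩ := hex 0 (Nat.pos_of_ne_zero hn)
      exact he.false i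
    subst hn
    simp
    exact hε.le
  obtain ⟨g, hg⟩ : ∃ g : ℕ → ι, ∀ j < n, a j ∈ Set.Icc (A (g j)) (B (g j)) ∧
      b j ∈ Set.Icc (A (g j)) (B (g j)) := by
    refine ⟨fun j => if hj : j < n then (hex j hj).choose else Classical.arbitrary ι,
      fun j hj => ?_⟩
    simp only [dif_pos hj]
    exact (hex j hj).choose_spec
  have key : ∀ i : ι, ∑ j ∈ (Finset.range n).filter (fun j => g j = i),
      psi (dist (p.1 (a j)) (p.1 (b j))) ≤
      C * p.2 * ∑ j ∈ (Finset.range n).filter (fun j => g j = i), ((b j : ℝ) - a j) +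
        ε / (Fintype.card ι + 1) := by
    intro i
    refine hηs i n a b _ (fun j hj => ⟨(h1 j hj).1, (h1 j hj).2.trans
      ((min_le_right _ _).trans (hle i))⟩) h2 ?_
    intro j hj
    obtain ⟨hj1, hj2⟩ := Finset.mem_filter.1 hj
    rw [Finset.mem_range] at hj1
    rw [← hj2]
    exact ⟨hj1, hg j hj1⟩
  have e1 : ∀ F : ℕ → ℝ, ∑ j ∈ Finset.range n, F j =
      ∑ i : ι, ∑ j ∈ (Finset.range n).filter (fun j => g j = i), F j := fun F =>
    (Finset.sum_fiberwise _ _ _).symm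
  rw [e1, e1 (fun j => (b j : ℝ) - a j), Finset.mul_sum]
  refine (Finset.sum_le_sum fun i _ => key i).trans ?_
  rw [Finset.sum_add_distrib, Finset.sum_const, Finset.card_univ, nsmul_eq_mul]
  have h6 : (Fintype.card ι : ℝ) * (ε / (Fintype.card ι + 1)) ≤ ε := by
    rw [mul_div_assoc', div_le_iff₀ (by positivity)]
    nlinarith
  linarith

/-- From the sums to the variation. -/
theorem Vpsi_le' {f : C(unitInterval, ℂ)} {T C : ℝ} (hT : 0 < T) (hC : 0 < C)
    {s t : unitInterval} (hst : s ≤ t)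
    (h : ∀ ε : ℝ, 0 < ε → ∃ η : ℝ, 0 < η ∧ ∀ (n : ℕ) (a b : ℕ → unitInterval),
      (∀ i < n, a i ≤ b i ∧ (b i : ℝ) - a i ≤ η) → (∀ i j, i < j → j < n → b i ≤ a j) →
      (∀ i < n, a i ∈ Set.Icc s t) →
      ∑ i ∈ Finset.range n, psi (dist (f (a i)) (f (b i))) ≤
        C * T * ∑ i ∈ Finset.range n, ((b i : ℝ) - a i) + ε) :
    Vpsi f s t ≤ ENNReal.ofReal (C * T * ((t : ℝ) - s)) := by
  have hst' : (s : ℝ) ≤ t := hst
  refine le_of_forall_pos_le_add ?_
  intro ε hε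
  by_cases hεt : ε = ⊤
  · rw [hεt, add_top]; exact le_top
  have hε0 : 0 < ε.toReal := ENNReal.toReal_pos hε.ne' hεt
  obtain ⟨η, hη, h1⟩ := h ε.toReal hε0
  unfold Vpsi
  refine iInf_le_of_le η (iInf_le_of_le hη ?_)
  refine iSup_le fun n => iSup_le fun τ => iSup_le fun hτ => ?_
  obtain ⟨hm, h0, hn, hmesh⟩ := hτ
  have h2 := h1 n τ (fun i => τ (i + 1)) (fun i hi => ⟨hm (Nat.le_succ i), hmesh i hi⟩)
    (fun i j hij _ => hm hij) (fun i hi => ⟨by rw [← h0]; exact hm (Nat.zero_le _),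
      by rw [← hn]; exact hm hi.le⟩)
  have h3 : ∑ i ∈ Finset.range n, ((τ (i + 1) : ℝ) - τ i) = (t : ℝ) - s := by
    rw [Finset.sum_range_sub (fun i => (τ i : ℝ)), h0, hn]
  rw [h3] at h2
  refine (ENNReal.ofReal_le_ofReal h2).trans ?_
  rw [ENNReal.ofReal_add (mul_nonneg (by positivity) (by linarith)) hε0.le,
    ENNReal.ofReal_toReal hεt]

end Pool.Agent.N956.PV
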