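import Pool.Agent.N956.PV.Loc
import Pool.Agent.N956.PV.Var
import Pool.Agent.Y995.LG.Uni
import Pool.Agent.R965.ST.Top

/-!
Transfer of the slow times.
-/

set_option autoImplicit false

namespace Pool.Agent.N956.PV

open H984P H984N MeasureTheory Filter Topology Pool.Agent.Y995.LG Pool.Agent.R967.Per
open Pool.Agent.R965.ST
open scoped ENNReal

theorem nhds_lt {A B t : unitInterval} (h : Set.Icc A B ∈ 𝓝 t) (ht : t ≠ 0) : A < t := by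
  have h1 : ∃ u, u < t := ⟨0, lt_of_le_of_ne (unitInterval.nonneg t) (Ne.symm ht)⟩
  obtain ⟨l, hl1, hl2⟩ := exists_Ioc_subset_of_mem_nhds h h1
  obtain ⟨m, hm1, hm2⟩ := exists_between hl1
  exact lt_of_le_of_lt (hl2 ⟨hm1, hm2.le⟩).1 hm2

theorem nhds_gt {A B t : unitInterval} (h : Set.Icc A B ∈ 𝓝 t) (ht : t ≠ 1) : t < B := by
  have h1 : ∃ u, t < u := ⟨1, lt_of_le_of_ne (unitInterval.le_one t) ht⟩
  obtain ⟨l, hl1, hl2⟩ := exists_Ico_subset_of_mem_nhds h h1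
  obtain ⟨m, hm1, hm2⟩ := exists_between hl1
  exact lt_of_lt_of_le hm1 (hl2 ⟨hm1.le, hm2⟩).2

theorem aff_dimH {p q : X} {z : ℂ} {A B : unitInterval} {lam : unitInterval → unitInterval} {ρ : ℝ}
    (h : Aff p q z A B lam ρ) {E : Set unitInterval} (hE : E ⊆ Set.Icc A B) :
    dimH (lam '' E) = dimH E := by
  refine dimH_sim h.ρ0 ?_
  intro s hs t ht
  rw [Subtype.dist_eq, Subtype.dist_eq, Real.dist_eq, Real.dist_eq, h.aff t (hE ht) s (hE hs),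
    abs_mul, abs_of_pos h.ρ0]

/-- Upper bound for the slow times. -/
theorem slow_up {p : X} (h0 : p.1 0 = p.1 1) {G : Set X} (hG : ∀ q ∈ G, 0 < q.2) (hl : LocG G p)
    {θ : ℝ} {d : ℝ≥0∞} (hU : ∀ q ∈ G, dimH (Sl θ q) ≤ d) :
    dimH {u : unitInterval | p.1 u ∈ Pool.Agent.Y995.LG.sq ∧ u ∈ Sl θ p} ≤ d := by
  have hsub : {u : unitInterval | p.1 u ∈ Pool.Agent.Y995.LG.sq ∧ u ∈ Sl θ p} ⊆
      {u : unitInterval | u ≠ 0 ∧ u ≠ 1 ∧ p.1 u ∈ Pool.Agent.Y995.LG.sq ∧ u ∈ Sl θ p} ∪ {0, 1} := by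
    intro u hu
    by_cases h2 : u = 0
    · right; left; exact h2
    · by_cases h3 : u = 1
      · right; right; exact h3
      · left; exact ⟨h2, h3, hu⟩
  refine (dimH_mono hsub).trans ?_
  rw [dimH_union, Set.Finite.dimH_zero (s := ({0, 1} : Set unitInterval)) (Set.toFinite _)]
  refine max_le ?_ zero_le
  by_contra hcon
  rw [not_le] at hcon
  obtain ⟨t0, ht0, h1⟩ := exists_mem_nhdsWithin_lt_dimH_of_lt_dimH hcon
  obtain ⟨hn0, hn1, hsq, hsl⟩ := ht0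
  obtain ⟨q, hq, z, A, B, lam, ρ, hnb, haff⟩ := aff_of h0 hG hl t0 hsq
  have hA := nhds_lt hnb hn0
  have hB := nhds_gt hnb hn1
  have h2 := h1 (Set.Ioo A B ∩ {u : unitInterval | u ≠ 0 ∧ u ≠ 1 ∧
    p.1 u ∈ Pool.Agent.Y995.LG.sq ∧ u ∈ Sl θ p})
    (Filter.inter_mem (mem_nhdsWithin_of_mem_nhds (Ioo_mem_nhds hA hB)) self_mem_nhdsWithin)
  rw [← aff_dimH haff (Set.inter_subset_left.trans Set.Ioo_subset_Icc_self)] at h2
  have h4 : lam '' (Set.Ioo A B ∩ {u : unitInterval | u ≠ 0 ∧ u ≠ 1 ∧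
      p.1 u ∈ Pool.Agent.Y995.LG.sq ∧ u ∈ Sl θ p}) ⊆ Sl θ q := by
    rintro _ ⟨t, ⟨ht1, -, -, -, ht2⟩, rfl⟩
    exact (slow_loc haff ht1.1 ht1.2).2 ht2
  exact absurd h2 (not_lt.2 ((dimH_mono h4).trans (hU q hq)))

/-- Lower bound for the slow times. -/
theorem slow_low {p : X} (h0 : p.1 0 = p.1 1) {G : Set X} (hG : ∀ q ∈ G, 0 < q.2) (hl : LocG G p)
    (hv : volume {t : unitInterval | p.1 t ∉ Pool.Agent.Y995.LG.sq} = 0)
    {θ : ℝ} {d : ℝ≥0∞} (hU : ∀ q ∈ G, ∀ s t : unitInterval, s < t → d ≤ dimH (Set.Icc s t ∩ Sl θ q))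
    {s t : unitInterval} (hst : s < t) :
    d ≤ dimH {u : unitInterval | u ∈ Set.Icc s t ∧ p.1 u ∈ Pool.Agent.Y995.LG.sq ∧ u ∈ Sl θ p} := by
  have hst' : (s : ℝ) < t := hst
  obtain ⟨t0, ht0, hsq⟩ : ∃ t0 ∈ Set.Ioo s t, p.1 t0 ∈ Pool.Agent.Y995.LG.sq := by
    by_contra hcon
    push Not at hcon
    have h1 : volume (Set.Ioo s t) = 0 := measure_mono_null (fun u hu => hcon u hu) hv
    rw [unitInterval.volume_Ioo] at h1
    have h2 := ENNReal.ofReal_eq_zero.1 h1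
    linarith
  obtain ⟨q, hq, z, A, B, lam, ρ, hnb, haff⟩ := aff_of h0 hG hl t0 hsq
  have hn0 : t0 ≠ 0 := (lt_of_le_of_lt (unitInterval.nonneg' : (0 : unitInterval) ≤ s) ht0.1).ne'
  have hn1 : t0 ≠ 1 := (lt_of_lt_of_le ht0.2 (unitInterval.le_one' : t ≤ 1)).ne
  have hA := nhds_lt hnb hn0
  have hB := nhds_gt hnb hn1
  have hN : Set.Ioo A B ∩ (Set.Ioo s t ∩ p.1 ⁻¹' Pool.Agent.Y995.LG.sq) ∈ 𝓝 t0 :=
    Filter.inter_mem (Ioo_mem_nhds hA hB) (Filter.inter_mem (Ioo_mem_nhds ht0.1 ht0.2)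
      ((sq_open.preimage p.1.continuous).mem_nhds hsq))
  obtain ⟨l, hl1, hl2⟩ := exists_Ioc_subset_of_mem_nhds hN ⟨A, hA⟩
  obtain ⟨u, hu1, hu2⟩ := exists_Ico_subset_of_mem_nhds hN ⟨B, hB⟩
  obtain ⟨a, ha1, ha2⟩ := exists_between hl1
  obtain ⟨b, hb1, hb2⟩ := exists_between hu1
  have hsub : ∀ x ∈ Set.Icc a b, x ∈ Set.Ioo A B ∩ (Set.Ioo s t ∩
      p.1 ⁻¹' Pool.Agent.Y995.LG.sq) := by
    rintro x ⟨hx1, hx2⟩
    rcases le_total x t0 with h | h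
    · exact hl2 ⟨lt_of_lt_of_le ha1 hx1, h⟩
    · exact hu2 ⟨h, lt_of_le_of_lt hx2 hb2⟩
  have hab : a < b := ha2.trans hb1
  have haI : a ∈ Set.Icc A B := Set.Ioo_subset_Icc_self (hsub a ⟨le_rfl, hab.le⟩).1
  have hbI : b ∈ Set.Icc A B := Set.Ioo_subset_Icc_self (hsub b ⟨hab.le, le_rfl⟩).1
  have h1 := hU q hq _ _ (aff_lt haff haI hbI hab)
  have h2 : Set.Icc (lam a) (lam b) ∩ Sl θ q ⊆
      lam '' {x | x ∈ Set.Icc a b ∧ x ∈ Sl θ p} := by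
    rintro y ⟨hy, hyS⟩
    obtain ⟨x, hx, rfl, hx1, hx2⟩ := aff_onto haff haI hbI hy.1 hy.2
    have hx3 := (hsub x ⟨hx1, hx2⟩).1
    exact ⟨x, ⟨⟨hx1, hx2⟩, (slow_loc haff hx3.1 hx3.2).1 hyS⟩, rfl⟩
  have h3 := h1.trans (dimH_mono h2)
  rw [aff_dimH haff (fun x hx => Set.Ioo_subset_Icc_self (hsub x hx.1).1)] at h3
  refine h3.trans (dimH_mono ?_)
  rintro x ⟨hx, hxS⟩
  have hx3 := (hsub x hx).2
  exact ⟨Set.Ioo_subset_Icc_self hx3.1, hx3.2, hxS⟩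

end Pool.Agent.N956.PV
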