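import Pool.Agent.N956.PV.Slow
import Pool.Agent.N956.PV.Low
import Pool.Agent.R967.Per.Top
import Pool.Agent.R965.EV.Top
import Pool.Agent.R965.CS.Top
import Pool.Agent.Y977.LGF.Fast

/-!
Sample path properties of the limits of the perimeter.
-/

set_option autoImplicit false

namespace Pool.Agent.N956.PV

open H984P H984N MeasureTheory Filter Topology Pool.Agent.Y995.LG Pool.Agent.R967.Per
open Pool.Agent.Y41.EV
open scoped ENNReal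

/-- The exact variation and the law of the iterated logarithm. -/
theorem var_top : ∃ c C c' C' : ℝ, 0 < c ∧ 0 < C ∧ 0 < c' ∧ 0 < C' ∧
    ∀ (sel : (n : ℕ) → Finset Edge → ℤ × ℤ) (f : (n : ℕ) → Finset Edge → X), Sel sel f →
      ∀ k : ℕ → ℕ, Tendsto k atTop atTop → ∀ μ : ProbabilityMeasure X,
      Tendsto (fun i => H342L.lawOf (k i) (f (k i))) atTop (𝓝 μ) →
      ∀ᵐ p ∂(μ : Measure X), p.1 0 = p.1 1 ∧ 0 < p.2 ∧
        (∀ s t : unitInterval, s ≤ t →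
          ENNReal.ofReal (c * p.2 * ((t : ℝ) - s)) ≤ Vpsi p.1 s t ∧
          ((∀ u ∈ Set.Icc s t, p.1 u ∈ Pool.Agent.Y995.LG.sq) →
            Vpsi p.1 s t ≤ ENNReal.ofReal (C * p.2 * ((t : ℝ) - s)))) ∧
        (∀ᵐ t : unitInterval,
          (∀ᶠ s : unitInterval in 𝓝 t, dist (p.1 s) (p.1 t) ≤ C' * phi (p.2 * |(s : ℝ) - t|)) ∧
          ∃ᶠ s : unitInterval in 𝓝 t, c' * phi (p.2 * |(s : ℝ) - t|) < dist (p.1 s) (p.1 t)) := by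
  obtain ⟨c, C, c', C', hc, hC, hc', hC', h⟩ := Pool.Agent.R965.EV.ev_top
  refine ⟨c, C, c', C', hc, hC, hc', hC', fun sel f hsel k hk μ hμ => ?_⟩
  filter_upwards [top_gen (G := {q : X | 0 < q.2 ∧ UPF q.1 q.2 C ∧ LOF q.1 q.2 c ∧
    (∀ᵐ t : unitInterval, (∀ᶠ s : unitInterval in 𝓝 t,
      dist (q.1 s) (q.1 t) ≤ C' * phi (q.2 * |(s : ℝ) - t|)) ∧
      ∃ᶠ s : unitInterval in 𝓝 t, c' * phi (q.2 * |(s : ℝ) - t|) < dist (q.1 s) (q.1 t))})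
    (fun q hq => hq.1) (fun R δ hδ hlim ν hν => by
      filter_upwards [(h R).2 δ hδ hlim ν hν] with q hq
      refine ⟨hq.1, hq.2.1, hq.2.2.1, ?_⟩
      filter_upwards [hq.2.2.2.1, hq.2.2.2.2] with t h1 h2
      exact ⟨h1, h2⟩) hsel hk hμ] with p hp
  obtain ⟨h0, hT, hv, hl⟩ := hp
  refine ⟨h0, hT, fun s t hst => ⟨?_, fun hs => ?_⟩, ?_⟩
  · exact Pool.Agent.R965.EV.le_Vpsi (low_arc h0 (fun q hq => hq.1) hl hT hv hc
      (fun q hq => hq.2.2.1)) hst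
  · exact Vpsi_le' hT hC hst fun ε hε => up_arc h0 (fun q hq => hq.1) hl
      (fun q hq => hq.2.1) hs hε
  · exact ae_times h0 (fun q hq => hq.1) hl hv
      (fun q t => (∀ᶠ s : unitInterval in 𝓝 t,
        dist (q.1 s) (q.1 t) ≤ C' * phi (q.2 * |(s : ℝ) - t|)) ∧
        ∃ᶠ s : unitInterval in 𝓝 t, c' * phi (q.2 * |(s : ℝ) - t|) < dist (q.1 s) (q.1 t))
      (fun q hq => hq.2.2.2) (fun q z A B lam ρ haff t h1 h2 h3 =>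
        ⟨up_loc haff h1 h2 h3.1, low_loc haff h1 h2 h3.2⟩)

/-- Chung's law and the slow times. -/
theorem slow_top : ∃ a b c C θ0 : ℝ, 0 < a ∧ 0 < b ∧ 0 < c ∧ 0 < C ∧ 0 < θ0 ∧ C / θ0 ^ 14 < 1 ∧
    ∀ (sel : (n : ℕ) → Finset Edge → ℤ × ℤ) (f : (n : ℕ) → Finset Edge → X), Sel sel f →
      ∀ k : ℕ → ℕ, Tendsto k atTop atTop → ∀ μ : ProbabilityMeasure X,
      Tendsto (fun i => H342L.lawOf (k i) (f (k i))) atTop (𝓝 μ) →
      ∀ᵐ p ∂(μ : Measure X), p.1 0 = p.1 1 ∧ 0 < p.2 ∧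
        (∀ᵐ t : unitInterval,
          (∀ᶠ h : ℝ in 𝓝[>] 0, ∀ s : unitInterval, p.2 * |(s : ℝ) - t| = h →
            ∃ x ∈ Set.uIcc s t, a * Pool.Agent.R965.CS.chi h < dist (p.1 x) (p.1 t)) ∧
          (∃ᶠ h : ℝ in 𝓝[>] 0, ∀ s : unitInterval, p.2 * |(s : ℝ) - t| ≤ h →
            dist (p.1 s) (p.1 t) ≤ b * Pool.Agent.R965.CS.chi h)) ∧
        ∀ θ : ℝ, θ0 ≤ θ → ∀ s t : unitInterval, s < t →
          (ENNReal.ofReal (1 - C / θ ^ 14) ≤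
              dimH {u | u ∈ Set.Icc s t ∧ p.1 u ∈ Pool.Agent.Y995.LG.sq ∧
                u ∈ Pool.Agent.R965.ST.Sl θ p} ∧
            dimH {u | u ∈ Set.Icc s t ∧ p.1 u ∈ Pool.Agent.Y995.LG.sq ∧
                u ∈ Pool.Agent.R965.ST.Sl θ p} ≤ ENNReal.ofReal (1 - c / θ ^ 14)) ∧
          dimH (p.1 '' {u | u ∈ Set.Icc s t ∧ p.1 u ∈ Pool.Agent.Y995.LG.sq ∧
              u ∈ Pool.Agent.R965.ST.Sl θ p}) =
            7 / 4 * dimH {u | u ∈ Set.Icc s t ∧ p.1 u ∈ Pool.Agent.Y995.LG.sq ∧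
              u ∈ Pool.Agent.R965.ST.Sl θ p} := by
  obtain ⟨a, b, ha, hb, h⟩ := Pool.Agent.R965.CS.chung_top
  obtain ⟨c, C, θ0, hc, hC, hθ0, hCθ, hS⟩ := Pool.Agent.R965.ST.slow_times
  obtain ⟨_, _, _, _, _, _, _, _, _, _, _, htop⟩ := Pool.Agent.Y995.LG.top
    (Pool.Agent.Y995.LG.uni Pool.Agent.Y995.LG.arc Pool.Agent.Y995.LG.cov)
    (Pool.Agent.Y977.LG.fast Pool.Agent.Y995.LG.arc Pool.Agent.Y995.LG.cov)
  refine ⟨a, b, c, C, θ0, ha, hb, hc, hC, hθ0, hCθ, fun sel f hsel k hk μ hμ => ?_⟩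
  filter_upwards [htop sel f hsel k hk μ hμ, top_gen (G := {q : X | 0 < q.2 ∧
    (∀ᵐ t : unitInterval,
      (∀ᶠ h : ℝ in 𝓝[>] 0, ∀ s : unitInterval, q.2 * |(s : ℝ) - t| = h →
        ∃ x ∈ Set.uIcc s t, a * Pool.Agent.R965.CS.chi h < dist (q.1 x) (q.1 t)) ∧
      (∃ᶠ h : ℝ in 𝓝[>] 0, ∀ s : unitInterval, q.2 * |(s : ℝ) - t| ≤ h →
        dist (q.1 s) (q.1 t) ≤ b * Pool.Agent.R965.CS.chi h)) ∧
    ∀ θ : ℝ, θ0 ≤ θ → dimH (Pool.Agent.R965.ST.Sl θ q) ≤ ENNReal.ofReal (1 - c / θ ^ 14) ∧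
      ∀ s t : unitInterval, s < t →
        ENNReal.ofReal (1 - C / θ ^ 14) ≤ dimH (Set.Icc s t ∩ Pool.Agent.R965.ST.Sl θ q)})
    (fun q hq => hq.1) (fun R δ hδ hlim ν hν => by
      filter_upwards [(h R).2 δ hδ hlim ν hν, (hS R).2 δ hδ hlim ν hν] with q h1 h2
      exact ⟨h1.1, h1.2, h2.2.2⟩) hsel hk hμ] with p hp' hp
  obtain ⟨h0, hT, hv, hl⟩ := hp
  obtain ⟨-, -, -, -, -, huni, -⟩ := hp'
  refine ⟨h0, hT, ?_, fun θ hθ s t hst => ⟨⟨?_, ?_⟩, ?_⟩⟩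
  · exact ae_times h0 (fun q hq => hq.1) hl hv
      (fun q t => (∀ᶠ h : ℝ in 𝓝[>] 0, ∀ s : unitInterval, q.2 * |(s : ℝ) - t| = h →
        ∃ x ∈ Set.uIcc s t, a * Pool.Agent.R965.CS.chi h < dist (q.1 x) (q.1 t)) ∧
      (∃ᶠ h : ℝ in 𝓝[>] 0, ∀ s : unitInterval, q.2 * |(s : ℝ) - t| ≤ h →
        dist (q.1 s) (q.1 t) ≤ b * Pool.Agent.R965.CS.chi h))
      (fun q hq => hq.2.1) (fun q z A B lam ρ haff t h1 h2 h3 =>
        ⟨chung_low haff h1 h2 h3.1, (slow_loc haff h1 h2).1 h3.2⟩)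
  · exact slow_low h0 (fun q hq => hq.1) hl hv (fun q hq => (hq.2.2 θ hθ).2) hst
  · refine (dimH_mono ?_).trans (slow_up h0 (fun q hq => hq.1) hl
      (fun q hq => (hq.2.2 θ hθ).1))
    rintro u ⟨-, h1, h2⟩
    exact ⟨h1, h2⟩
  · exact huni _ fun u hu => hu.2.1

end Pool.Agent.N956.PV
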